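import Mathlib
import Pool.Agent.H6.Fbee

/-!
Symmetric sets of reals and the `σ`-algebra generated by the additive subgroups of `ℝ`.
-/

open Cardinal Set MeasureTheory

namespace Pool.Agent.Results.MP_fbee13_lc.AlephOne

/-- The `σ`-algebra on `ℝ` generated by the additive subgroups. -/
def Bgrp : MeasurableSpace ℝ :=
  MeasurableSpace.generateFrom {S : Set ℝ | ∃ G : AddSubgroup ℝ, (G : Set ℝ) = S}

/-- **Every symmetric set of reals of cardinality at most `ℵ₁` lies in the `σ`-algebra generated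
by the additive subgroups of `ℝ`**; hence under the continuum hypothesis every symmetric set
does; every set `±L` with `L` linearly independent over `ℚ` does; and every symmetric set of
reals does if and only if every subset of the plane lies in the `σ`-algebra generated by all rectangles
`S × T` with `S, T ⊆ ℝ` arbitrary. **If there is a countably additive probability measure defined
on all sets of reals and vanishing on singletons, then some symmetric set of reals does not.** -/
theorem result :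
    (∀ Z : Set ℝ, (∀ z ∈ Z, -z ∈ Z) → #Z ≤ ℵ₁ → MeasurableSet[Bgrp] Z) ∧
    ((𝔠 : Cardinal.{0}) = ℵ₁ → ∀ Z : Set ℝ, (∀ z ∈ Z, -z ∈ Z) → MeasurableSet[Bgrp] Z) ∧
    (∀ L : Set ℝ, LinearIndepOn ℚ id L → MeasurableSet[Bgrp] {x | x ∈ L ∨ -x ∈ L}) ∧
    ((∀ Z : Set ℝ, (∀ z ∈ Z, -z ∈ Z) → MeasurableSet[Bgrp] Z) ↔ ∀ A : Set (ℝ × ℝ),
      MeasurableSet[MeasurableSpace.generateFrom
        {R : Set (ℝ × ℝ) | ∃ S T : Set ℝ, R = S ×ˢ T}] A) ∧
    ((∃ μ : @Measure ℝ ⊤, μ univ = 1 ∧ ∀ x, μ {x} = 0) →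
      ∃ Z : Set ℝ, (∀ z ∈ Z, -z ∈ Z) ∧ ¬ MeasurableSet[Bgrp] Z) :=
  Pool.Agent.H6.Fbee.result

end Pool.Agent.Results.MP_fbee13_lc.AlephOne
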